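import Pool.Agent.H143_GC.Bridge

/-!
# The simple objects on the geometric side of the orthosymplectic Gaiotto equivalence

`m = l + 1`, `n = m + k`, `c` not rational.  The simple `Sp(2k, O) ⋉ U_k(F)`-equivariant objects
supported on single orbits of the affine Grassmannian of `Sp(2n)`, with values in the discrete
modules over the Weyl algebra of `F^{2k}` and with the twist `c⁻¹`, are in an explicit bijection
with the `(n | k)`-hook diagrams, the labels of the irreducible representations of
`SOSp(2n+1|2k)`.  All definitions are in `Pool.Agent.H143_GC.Stmt`.
-/

namespace Pool.Agent.Results.MP_0352d9_al.HookClassification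

open Pool.Agent.GaiottoOsp

/-- For `c` not rational there is, for each `(n | k)`-hook diagram `Y`, a simple equivariant pair
`P Y`. Its point of the affine Grassmannian is `t ^ (λ, μ)`, where `λ` consists of the lengths of
the first `m` columns and `μ_j` is the hook length `arm + leg` of the box `(j, m + j)`; its module
is generated by a vacuum vector for an explicit isotropic lattice of `F^{2k}` given by the arm
lengths, with the eigenvalue `2 (arm + leg) / c` in the direction `j`; and the elements of `F^{2k}`
which act locally nilpotently are those of this lattice.  Every simple equivariant pair is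
isomorphic to exactly one `P Y`. -/
theorem result (l k : ℕ) (c : ℂ) (hc : ∀ q : ℚ, (q : ℂ) ≠ c) :
    ∃ P : HookDiagram l k → SimplePair c l k,
      (∀ Y, (P Y).g = tPoint (fun i => (Y.1.colLen i : ℤ)) (fun j => (arm Y j + leg Y j : ℤ))) ∧
      (∀ Y, ∃ v, IsVacuum c Y (P Y).W v) ∧
      (∀ Y x, LocallyNilpotent ((P Y).W.act x) ↔ InLattice Y x) ∧
      ∀ Q : SimplePair c l k, ∃! Y, Q.Iso (P Y) :=
  Pool.Agent.H143_GC.main' l k c hc

end Pool.Agent.Results.MP_0352d9_al.HookClassification
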