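import Pool.Agent.H143_GC.Compact

/-!
# The locally compact objects on the orbits

`m = l + 1`, `n = m + k`, `c` not rational.  At every point of the affine Grassmannian of `Sp(2n)` the
equivariant discrete modules over the Weyl algebra of `F^{2k}` (with the twist `c⁻¹`) which are compact
when the equivariance is forgotten are exactly the finite direct sums of simple equivariant modules.
The definitions are in `Pool.Agent.H143_GC.Stmt`, `Stmt2` and `Stmt4`.
-/

namespace Pool.Agent.Results.MP_0352d9_al.LocallyCompact

open Pool.Agent.GaiottoOsp

/-- Let `c` be not rational, `g ∈ Sp(2n, F)` and `W` an equivariant module at the point `g G(O)`. Then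
`W` is compact as a discrete module over the Weyl algebra if and only if it is the direct sum of
finitely many simple equivariant modules at the same point. -/
theorem result (l k : ℕ) (c : ℂ) (hc : ∀ q : ℚ, (q : ℂ) ≠ c)
    (g : Matrix (Idx l k) (Idx l k) F) (hg : InSp g) (W : WeylMod k) (hE : IsEquivariant c g W) :
    W.IsCompact ↔ ∃ (n : ℕ) (P : Fin n → SimplePair c l k), (∀ i, (P i).g = g) ∧
      ∃ φ, IsDirectSum (fun i => (P i).W) W φ :=
  Pool.Agent.H143_Cpt.compact_main l k c hc g hg W hE

end Pool.Agent.Results.MP_0352d9_al.LocallyCompact
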