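import Pool.Agent.H143_GC.Bridge2

/-!
# Complete reducibility on the orbits

`m = l + 1`, `n = m + k`, `c` not rational.  For every point of the affine Grassmannian of `Sp(2n)`
the equivariant discrete modules over the Weyl algebra of `F^{2k}` at this point (with the twist
`c⁻¹`, for the stabiliser of the point in `Sp(2k, O) ⋉ U_k(F)`) are direct sums of simple ones. The
definitions are in `Pool.Agent.H143_GC.Stmt` and `Pool.Agent.H143_GC.Stmt2`.
-/

namespace Pool.Agent.Results.MP_0352d9_al.OrbitSemisimple

open Pool.Agent.GaiottoOsp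

/-- Let `c` be not rational, `g ∈ Sp(2n, F)` and `W` an equivariant module at the point `g G(O)`, of
arbitrary size. Then `W` is a direct sum of simple equivariant modules at the same point. -/
theorem result (l k : ℕ) (c : ℂ) (hc : ∀ q : ℚ, (q : ℂ) ≠ c)
    (g : Matrix (Idx l k) (Idx l k) F) (hg : InSp g) (W : WeylMod k) (hE : IsEquivariant c g W) :
    ∃ (ι : Type) (P : ι → SimplePair c l k), (∀ i, (P i).g = g) ∧
      ∃ φ, IsDirectSum (fun i => (P i).W) W φ :=
  Pool.Agent.H143_GC.semisimple_main l k c hc g hg W hE

end Pool.Agent.Results.MP_0352d9_al.OrbitSemisimple
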