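import Pool.Agent.H143_GC.Twist

/-!
# The twist of the simple objects is the Casimir eigenvalue

The rotation `t d/dt - h'/2` of the formal disc preserves `Sp(2k, O) ⋉ U_k(F)` and its character, its
exponential `exp (2 π i (t d/dt - h'/2))` acts trivially on the affine Grassmannian and on `F^{2k}`,
and it fixes the points `t ^ (λ, μ)`.  So it acts on a simple equivariant object by a scalar, the twist
of the object, which is `exp (2 π i (R + χ))` with `R` the action through the completed Weyl algebra and
`χ` the action on the fibre of the twisting line bundle.  For the object labelled by the hook diagram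
`Y` this is `exp (2 π i Q / c) = q ^ (2 Q)`, `q = exp (π i / c)`, with `Q` the eigenvalue of the Casimir
element of `osp(2n+1|2k)`.  All definitions are in `Pool.Agent.H143_GC.Stmt`, `Stmt3`.
-/

namespace Pool.Agent.Results.MP_0352d9_al.TwistCasimir

open Pool.Agent.GaiottoOsp

/-- Let `c` be not rational and let `P` be a simple equivariant pair with the point and a vacuum vector
of the hook diagram `Y`. The rotation operator `R` of its module exists, satisfies
`[R, x] = t dx/dt - h' x / 2`, and `R + χ - Q / c` is diagonalisable with integral eigenvalues, where `χ`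
is the value of the twisting character at the rotation and `Q` is the Casimir eigenvalue of `Y`. -/
theorem result (l k : ℕ) (c : ℂ) (hc : ∀ q : ℚ, (q : ℂ) ≠ c) (Y : HookDiagram l k)
    (P : SimplePair c l k)
    (hg : P.g = tPoint (fun i => (Y.1.colLen i : ℤ)) (fun j => (arm Y j + leg Y j : ℤ)))
    (v : P.W.M) (hv : IsVacuum c Y P.W v) :
    ∃ R, IsRotation P.W R ∧
      (∀ x m, R (P.W.act x m) - P.W.act x (R m) = P.W.act (rot x) m) ∧
      IntegrallyDiagonalisable fun m => R m + (chiRot c P.g - casimir Y / c) • m :=
  Pool.Agent.H143_GC.Twist.twist_main l k c hc Y P hg v hv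

end Pool.Agent.Results.MP_0352d9_al.TwistCasimir
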